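import Pool.Agent.H97.NU2

set_option autoImplicit false

namespace Pool.Agent.Results.MP_cfda27_lc.NonUnital

open FirstOrder FirstOrder.Language
open Pool.Agent.H97 (model_iff_of_homog)

universe u

/-- Function symbols of the signature `L_0`: the constant `0`, negation, addition, multiplication
and, for each scalar `c`, the unary operation of scalar multiplication by `c`. -/
inductive Fn (k : Type u) : ℕ → Type u
  | zero : Fn k 0
  | neg : Fn k 1
  | add : Fn k 2
  | mul : Fn k 2
  | smul (c : k) : Fn k 1

/-- The only relation symbol is the unary predicate `P`. -/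
inductive Rl : ℕ → Type
  | P : Rl 1

/-- The signature `L_0` expanded by `P`. -/
def Lang (k : Type u) : FirstOrder.Language.{u, 0} := ⟨Fn k, Rl⟩

/-- Interpretation of the function symbols in an algebra. -/
def interp {k : Type u} {F : Type u} [Field k] [NonUnitalRing F] [Module k F] :
    {n : ℕ} → Fn k n → (Fin n → F) → F
  | _, .zero, _ => 0
  | _, .neg, v => - v 0
  | _, .add, v => v 0 + v 1
  | _, .mul, v => v 0 * v 1
  | _, .smul c, v => c • v 0

/-- The pair `(F, A)` as a first-order structure: `P` is interpreted as membership in `A`. -/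
@[instance_reducible]
def pair (k : Type u) [Field k] (F : Type u) [NonUnitalRing F] [Module k F]
    (A : NonUnitalSubalgebra k F) : (Lang k).Structure F where
  funMap := fun f v => interp f v
  RelMap := fun {_} r v => match r, v with
    | Rl.P, v => v 0 ∈ A

/-- `A` is a free associative (non-unital) `k`-algebra: it is isomorphic to the semigroup algebra
of the free semigroup (nonempty words) on some set. -/
def IsFree (k : Type u) [Field k] (A : Type u) [NonUnitalRing A] [Module k A] : Prop :=
  ∃ (X : Type u) (e : MonoidAlgebra k (FreeSemigroup X) →ₙₐ[k] A), Function.Bijective e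

theorem isFree_of_small {k : Type u} [Field k] {A : Type u} [NonUnitalRing A] [Module k A]
    [IsScalarTower k A A] [SMulCommClass k A A]
    {X : Type} (e : MonoidAlgebra k (FreeSemigroup X) →ₙₐ[k] A) (he : Function.Bijective e) :
    IsFree k A := by
  let g : MonoidAlgebra k (FreeSemigroup (ULift.{u} X)) →ₙₐ[k] MonoidAlgebra k (FreeSemigroup X) :=
    H97.nlift k (fun x => H97.nι k x.down)
  let g' : MonoidAlgebra k (FreeSemigroup X) →ₙₐ[k] MonoidAlgebra k (FreeSemigroup (ULift.{u} X)) :=
    H97.nlift k (fun x => H97.nι k (ULift.up x))
  have h1 : g.comp g' = NonUnitalAlgHom.id k _ := by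
    apply H97.nhom_ext
    intro x
    change g (g' (H97.nι k x)) = H97.nι k x
    simp only [g, g', H97.nlift_nι]
  have h2 : g'.comp g = NonUnitalAlgHom.id k _ := by
    apply H97.nhom_ext
    intro x
    change g' (g (H97.nι k x)) = H97.nι k x
    simp only [g, g', H97.nlift_nι]
  have hg : Function.Bijective g := by
    rw [Function.bijective_iff_has_inverse]
    exact ⟨g', fun x => congrArg (fun φ => φ x) h2, fun x => congrArg (fun φ => φ x) h1⟩
  exact ⟨ULift.{u} X, e.comp g, he.comp hg⟩

/-- For every field `k`, no first-order theory axiomatizes, within all pairs `(F, A)` of a free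
non-unital associative `k`-algebra and a subalgebra, those with `A` free. -/
theorem result (k : Type u) [Field k] :
    ¬ ∃ T : (Lang k).Theory,
      ∀ (F : Type u) [NonUnitalRing F] [Module k F] [IsScalarTower k F F] [SMulCommClass k F F],
        IsFree k F → ∀ A : NonUnitalSubalgebra k F,
          (IsFree k A ↔ @Theory.Model (Lang k) F (pair k F A) T) := by
  rintro ⟨T, hT⟩
  have hsmall : IsFree k (H97.FEn k) := by
    obtain ⟨e, he⟩ := H97.FEn_free k
    exact isFree_of_small e he
  have hsmall' : IsFree k (H97.AEn k) := by
    obtain ⟨e, he⟩ := H97.AEn_free k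
    exact isFree_of_small e he
  have hbig : IsFree k (H97.NF k H97.Var) := isFree_of_small (NonUnitalAlgHom.id k _)
    Function.bijective_id
  have h1 := (hT (H97.FEn k) hsmall (H97.AEn k)).1 hsmall'
  have h2 : @Theory.Model (Lang k) (H97.FEn k) (pair k (H97.FEn k) (H97.AEn k)) T ↔
      @Theory.Model (Lang k) (H97.NF k H97.Var) (pair k (H97.NF k H97.Var) (H97.AAn k)) T := by
    let _ : (Lang k).Structure (H97.FEn k) := pair k (H97.FEn k) (H97.AEn k)
    let _ : (Lang k).Structure (H97.NF k H97.Var) := pair k (H97.NF k H97.Var) (H97.AAn k)
    let f : H97.FEn k ↪[Lang k] H97.NF k H97.Var :=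
      { toFun := Subtype.val
        inj' := Subtype.val_injective
        map_fun' := by
          intro n g xs
          cases g <;> rfl
        map_rel' := by
          intro n r xs
          cases r
          rfl }
    refine model_iff_of_homog f ?_ T
    intro n x a
    obtain ⟨σ, h1, h2, h3, h4⟩ := H97.exists_aut_n k n x a
    let τ : H97.NF k H97.Var ≃[Lang k] H97.NF k H97.Var :=
      { toEquiv := Equiv.ofBijective σ h1
        map_fun' := by
          intro n g xs
          cases g
          · exact map_zero σ
          · exact map_neg σ _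
          · exact map_add σ _ _
          · exact map_mul σ _ _
          · exact map_smul σ _ _
        map_rel' := by
          intro n r xs
          cases r
          exact h2 _ }
    exact ⟨τ, fun i => h3 i, ⟨σ a, h4⟩, rfl⟩
  obtain ⟨Y, e, he⟩ := (hT (H97.NF k H97.Var) hbig (H97.AAn k)).2 (h2.1 h1)
  exact H97.AAn_not_free k Y e he

end Pool.Agent.Results.MP_cfda27_lc.NonUnital
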