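import Pool.Agent.H97.Main5

set_option autoImplicit false

namespace Pool.Agent.Results.MP_cfda27_lc.UnitalEveryField

open FirstOrder FirstOrder.Language
open Pool.Agent.H97 (model_iff_of_homog)

universe u

/-- Function symbols of the signature `L_1`: the constants `0` and `1`, negation, addition,
multiplication and, for each scalar `c`, the unary operation of scalar multiplication by `c`. -/
inductive Fn (k : Type u) : ℕ → Type u
  | zero : Fn k 0
  | one : Fn k 0
  | neg : Fn k 1
  | add : Fn k 2
  | mul : Fn k 2
  | smul (c : k) : Fn k 1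

/-- The only relation symbol is the unary predicate `P`. -/
inductive Rl : ℕ → Type
  | P : Rl 1

/-- The signature `L_1` expanded by `P`. -/
def Lang (k : Type u) : FirstOrder.Language.{u, 0} := ⟨Fn k, Rl⟩

/-- Interpretation of the function symbols in an algebra. -/
def interp {k : Type u} {F : Type u} [Field k] [Ring F] [Algebra k F] :
    {n : ℕ} → Fn k n → (Fin n → F) → F
  | _, .zero, _ => 0
  | _, .one, _ => 1
  | _, .neg, v => - v 0
  | _, .add, v => v 0 + v 1
  | _, .mul, v => v 0 * v 1
  | _, .smul c, v => c • v 0

/-- The pair `(F, A)` as a first-order structure: `P` is interpreted as membership in `A`. -/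
@[instance_reducible]
def pair (k : Type u) [Field k] (F : Type u) [Ring F] [Algebra k F]
    (A : Subalgebra k F) : (Lang k).Structure F where
  funMap := fun f v => interp f v
  RelMap := fun {_} r v => match r, v with
    | Rl.P, v => v 0 ∈ A

/-- `A` is a free associative unital `k`-algebra. -/
def IsFree (k : Type u) [Field k] (A : Type u) [Ring A] [Algebra k A] : Prop :=
  ∃ X : Type u, Nonempty (A ≃ₐ[k] FreeAlgebra k X)

theorem isFree_of_small {k : Type u} [Field k] {A : Type u} [Ring A] [Algebra k A]
    {X : Type} (e : A ≃ₐ[k] FreeAlgebra k X) : IsFree k A := by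
  let g : FreeAlgebra k (ULift.{u} X) →ₐ[k] FreeAlgebra k X :=
    FreeAlgebra.lift k (fun x => FreeAlgebra.ι k x.down)
  let g' : FreeAlgebra k X →ₐ[k] FreeAlgebra k (ULift.{u} X) :=
    FreeAlgebra.lift k (fun x => FreeAlgebra.ι k (ULift.up x))
  have h1 : g.comp g' = AlgHom.id k _ := by
    apply FreeAlgebra.hom_ext
    funext x
    simp [g, g']
  have h2 : g'.comp g = AlgHom.id k _ := by
    apply FreeAlgebra.hom_ext
    funext x
    simp [g, g']
  exact ⟨ULift.{u} X, ⟨e.trans (AlgEquiv.ofAlgHom g' g h2 h1)⟩⟩

/-- For every field `k`, no first-order theory axiomatizes, within all pairs `(F, A)` of a free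
unital associative `k`-algebra and a subalgebra, those with `A` free. -/
theorem result (k : Type u) [Field k] :
    ¬ ∃ T : (Lang k).Theory,
      ∀ (F : Type u) [Ring F] [Algebra k F],
        IsFree k F → ∀ A : Subalgebra k F,
          (IsFree k A ↔ @Theory.Model (Lang k) F (pair k F A) T) := by
  rintro ⟨T, hT⟩
  have hsmall : IsFree k (H97.FE k) := by
    obtain ⟨e⟩ := H97.FE_free k
    exact isFree_of_small e
  have hsmall' : IsFree k (H97.AE' k) := by
    obtain ⟨e⟩ := H97.AE'_free k
    exact isFree_of_small e
  have hbig : IsFree k (H97.FF k) := isFree_of_small (X := H97.Var) AlgEquiv.refl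
  have h1 := (hT (H97.FE k) hsmall (H97.AE' k)).1 hsmall'
  have h2 : @Theory.Model (Lang k) (H97.FE k) (pair k (H97.FE k) (H97.AE' k)) T ↔
      @Theory.Model (Lang k) (H97.FF k) (pair k (H97.FF k) (H97.AA k)) T := by
    let _ : (Lang k).Structure (H97.FE k) := pair k (H97.FE k) (H97.AE' k)
    let _ : (Lang k).Structure (H97.FF k) := pair k (H97.FF k) (H97.AA k)
    let f : H97.FE k ↪[Lang k] H97.FF k :=
      { toFun := Subtype.val
        inj' := Subtype.val_injective
        map_fun' := by
          intro n g xs
          cases g <;> rfl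
        map_rel' := by
          intro n r xs
          cases r
          rfl }
    refine model_iff_of_homog f ?_ T
    intro n x a
    obtain ⟨h, h1, h2⟩ := H97.exists_aut k n x a
    let τ : H97.FF k ≃[Lang k] H97.FF k :=
      { toEquiv := (h.alg k).toEquiv
        map_fun' := by
          intro n g xs
          cases g
          · exact map_zero (h.alg k)
          · exact map_one (h.alg k)
          · exact map_neg (h.alg k) _
          · exact map_add (h.alg k) _ _
          · exact map_mul (h.alg k) _ _
          · exact map_smul (h.alg k) _ _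
        map_rel' := by
          intro n r xs
          cases r
          exact H97.TAut.alg_mem_AA_iff k h }
    exact ⟨τ, fun i => h1 i, ⟨h.alg k a, h2⟩, rfl⟩
  obtain ⟨Y, ⟨e⟩⟩ := (hT (H97.FF k) hbig (H97.AA k)).2 (h2.1 h1)
  exact (H97.AA_not_free k Y).false e

end Pool.Agent.Results.MP_cfda27_lc.UnitalEveryField
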